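import Pool.Agent.Helper20.RL.St5

/-!
# Project RL (MP_cb927e_an), module PHI: the sum over the higher levels
-/

set_option autoImplicit false

open MeasureTheory Set Filter Topology
open scoped ENNReal RealInnerProductSpace

namespace Pool.Agent.Helper12.RL

open Pool.Agent.Helper68.LM (Pl BB Bd Av HL ft fm DQ)
open Pool.Agent.Helper20.RG Pool.Agent.Helper20.RL

theorem phi_bb_ind {F : Set Pl} (hF : BM F) : BB (F.indicator 1) := by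
  obtain ⟨h1, h2⟩ := hF
  obtain ⟨r, hr⟩ := h2.subset_closedBall (0 : Pl)
  refine ⟨measurable_one.indicator h1, max 1 r, fun x => ?_, fun x hx => ?_⟩
  · by_cases hxF : x ∈ F
    · simp [hxF]
    · simp [hxF]
  · apply indicator_of_notMem
    intro hxF
    have := hr hxF
    rw [Metric.mem_closedBall, dist_zero_right] at this
    have h3 := le_max_right (1 : ℝ) r
    linarith

theorem phi_sum (a : ℝ) (ha : 0 < a) :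
    Summable fun i : ℕ => ((i : ℝ) + 2) ^ 3 * (2 : ℝ) ^ (-(a * i)) := by
  set r : ℝ := (2 : ℝ) ^ (-a) with hr
  have hr0 : 0 < r := Real.rpow_pos_of_pos (by norm_num) _
  have hr1 : r < 1 := Real.rpow_lt_one_of_one_lt_of_neg (by norm_num) (by linarith)
  have h1 : Summable fun i : ℕ => ((i : ℝ)) ^ 3 * r ^ i :=
    summable_pow_mul_geometric_of_norm_lt_one 3 (by
      rw [Real.norm_eq_abs, abs_of_pos hr0]
      exact hr1)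
  have h2 := ((summable_nat_add_iff 2).2 h1).mul_left ((r ^ 2)⁻¹)
  refine h2.congr fun i => ?_
  have h3 : (2 : ℝ) ^ (-(a * i)) = r ^ i := by
    rw [hr, ← Real.rpow_natCast, ← Real.rpow_mul (by norm_num)]
    congr 1
    ring
  rw [h3, pow_add]
  push_cast
  field_simp

theorem phi_geo (a : ℝ) (ha : 0 < a) : Summable fun i : ℕ => (2 : ℝ) ^ (-(a * i)) := by
  have hr0 : 0 < (2 : ℝ) ^ (-a) := Real.rpow_pos_of_pos (by norm_num) _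
  have hr1 : (2 : ℝ) ^ (-a) < 1 := Real.rpow_lt_one_of_one_lt_of_neg (by norm_num) (by linarith)
  refine (summable_geometric_of_lt_one hr0.le hr1).congr fun i => ?_
  rw [← Real.rpow_natCast, ← Real.rpow_mul (by norm_num)]
  congr 1
  ring

theorem phi_cheb {f : Pl → ℝ} (hf : Measurable f) {a : ℝ} (ha : 0 < a) :
    volume {x | ENNReal.ofReal a ≤ ‖f x‖ₑ} ≤
      ENNReal.ofReal ((a ^ 2)⁻¹) * ∫⁻ x, ‖f x‖ₑ ^ 2 := by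
  have h1 := mul_meas_ge_le_lintegral (μ := (volume : Measure Pl)) (f := fun x => ‖f x‖ₑ ^ 2)
    (hf.enorm.pow_const 2) (ENNReal.ofReal a ^ 2)
  have h2 : {x | ENNReal.ofReal a ≤ ‖f x‖ₑ} ⊆ {x | ENNReal.ofReal a ^ 2 ≤ ‖f x‖ₑ ^ 2} :=
    fun x hx => by
      simp only [Set.mem_ofPred_eq] at hx ⊢
      exact pow_le_pow_left' hx 2
  have ha0 : ENNReal.ofReal a ≠ 0 := (ENNReal.ofReal_pos.2 ha).ne'
  have ha2 : ENNReal.ofReal a ^ 2 ≠ 0 := pow_ne_zero 2 ha0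
  have ha3 : ENNReal.ofReal a ^ 2 ≠ ⊤ := ENNReal.pow_ne_top ENNReal.ofReal_ne_top
  calc volume {x | ENNReal.ofReal a ≤ ‖f x‖ₑ}
      ≤ volume {x | ENNReal.ofReal a ^ 2 ≤ ‖f x‖ₑ ^ 2} := measure_mono h2
    _ = (ENNReal.ofReal a ^ 2)⁻¹ *
        (ENNReal.ofReal a ^ 2 * volume {x | ENNReal.ofReal a ^ 2 ≤ ‖f x‖ₑ ^ 2}) := by
        rw [← mul_assoc, ENNReal.inv_mul_cancel ha2 ha3, one_mul]
    _ ≤ (ENNReal.ofReal a ^ 2)⁻¹ * ∫⁻ x, ‖f x‖ₑ ^ 2 := by gcongr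
    _ = ENNReal.ofReal ((a ^ 2)⁻¹) * ∫⁻ x, ‖f x‖ₑ ^ 2 := by
        rw [ENNReal.ofReal_inv_of_pos (by positivity), ENNReal.ofReal_pow ha.le]

theorem phi_meas (hYB : StYB) {φ τ : ℝ → ℝ} (hG : Graph φ τ) (c : Pl) (u : ℕ) (k : ℤ)
    {g : Pl → ℝ} (hg : BB g) : Measurable (Sa c φ τ u k g) := by
  unfold Sa
  refine Measurable.const_mul (Finset.measurable_sum _ fun j _ => ?_) _
  exact (hYB _ _ _ _ _ _ (hG.1 _) (by positivity) hg).1.1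

/-- the numbers -/
theorem phi_num {σ q δ M C₀ c₁ : ℝ} (hσq : σ < q) (hq : q < 2) (hδ1 : δ ≤ 1 / 8)
    (hδ2 : δ ≤ (2 - σ) / 4) (hC₀ : 0 < C₀) (hc₁ : 0 < c₁)
    (hM : ∀ u : ℕ, ((u : ℝ) + 1) ^ 3 * (2 : ℝ) ^ ((1 - q) * u) ≤ M)
    (u i : ℕ) (Λ : ℝ) (hΛ : (2 : ℝ) ^ (-(u : ℤ)) ≤ Λ) :
    ((c₁ * ((2 : ℝ) ^ (-δ)) ^ i * Λ) ^ 2)⁻¹ * (C₀ * ((((u + i + 1 : ℕ) : ℝ) + 1) ^ 3 *
      (2 : ℝ) ^ (-((u + i + 1 : ℕ) : ℝ)) + (2 : ℝ) ^ ((σ - 2) * ((u + i + 1 : ℕ) : ℝ)))) ≤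
    ((c₁ ^ 2)⁻¹ * C₀ * Λ ^ (-q)) * (M * (((i : ℝ) + 2) ^ 3 * (2 : ℝ) ^ (-(3 / 4 * (i : ℝ)))) +
      (2 : ℝ) ^ (-((2 - σ) / 2 * (i : ℝ)))) := by
  have h2 : (0 : ℝ) < 2 := by norm_num
  have hΛ' : (2 : ℝ) ^ (-(u : ℝ)) ≤ Λ := by
    have e : (2 : ℝ) ^ (-(u : ℝ)) = (2 : ℝ) ^ (-(u : ℤ)) := by
      rw [← Real.rpow_intCast]
      push_cast
      rfl
    rwa [e]
  have hΛ0 : 0 < Λ := lt_of_lt_of_le (Real.rpow_pos_of_pos h2 _) hΛ'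
  have e1 : ((c₁ * ((2 : ℝ) ^ (-δ)) ^ i * Λ) ^ 2)⁻¹ =
      (c₁ ^ 2)⁻¹ * (2 : ℝ) ^ (2 * δ * i) * (Λ ^ 2)⁻¹ := by
    have e2 : (2 : ℝ) ^ (2 * δ * i) = ((((2 : ℝ) ^ (-δ)) ^ i) ^ 2)⁻¹ := by
      rw [← pow_mul, ← Real.rpow_natCast, ← Real.rpow_mul h2.le, ← Real.rpow_neg h2.le]
      congr 1
      push_cast
      ring
    rw [e2, mul_pow, mul_pow, mul_inv, mul_inv]
  have e3 : (Λ ^ 2)⁻¹ ≤ Λ ^ (-q) * (2 : ℝ) ^ ((2 - q) * u) := by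
    have h3 : (Λ ^ 2)⁻¹ = Λ ^ (-q) * Λ ^ (q - 2) := by
      rw [← Real.rpow_add hΛ0, ← Real.rpow_natCast, ← Real.rpow_neg hΛ0.le]
      congr 1
      push_cast
      ring
    rw [h3]
    refine mul_le_mul_of_nonneg_left ?_ (Real.rpow_nonneg hΛ0.le _)
    have h4 := Real.rpow_le_rpow_of_nonpos (Real.rpow_pos_of_pos h2 (-(u : ℝ))) hΛ'
      (show q - 2 ≤ 0 by linarith)
    refine h4.trans (le_of_eq ?_)
    rw [← Real.rpow_mul h2.le]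
    congr 1
    ring
  have hΛq : 0 < Λ ^ (-q) := Real.rpow_pos_of_pos hΛ0 _
  -- first term
  have hu0 : (0 : ℝ) ≤ u := Nat.cast_nonneg u
  have hi0 : (0 : ℝ) ≤ i := Nat.cast_nonneg i
  have f1 : (2 : ℝ) ^ (2 * δ * i) * (2 : ℝ) ^ ((2 - q) * u) * ((((u + i + 1 : ℕ) : ℝ) + 1) ^ 3 *
      (2 : ℝ) ^ (-((u + i + 1 : ℕ) : ℝ))) ≤
      M * (((i : ℝ) + 2) ^ 3 * (2 : ℝ) ^ (-(3 / 4 * (i : ℝ)))) := by
    have g1 : (((u + i + 1 : ℕ) : ℝ) + 1) ^ 3 ≤ (((u : ℝ) + 1) * ((i : ℝ) + 2)) ^ 3 := by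
      refine pow_le_pow_left₀ (by positivity) ?_ 3
      push_cast
      nlinarith [mul_nonneg hu0 hi0]
    have g2 : (2 : ℝ) ^ (2 * δ * i) * (2 : ℝ) ^ ((2 - q) * u) *
        (2 : ℝ) ^ (-((u + i + 1 : ℕ) : ℝ)) ≤
        (2 : ℝ) ^ ((1 - q) * u) * (2 : ℝ) ^ (-(3 / 4 * (i : ℝ))) := by
      rw [← Real.rpow_add h2, ← Real.rpow_add h2, ← Real.rpow_add h2]
      refine Real.rpow_le_rpow_of_exponent_le (by norm_num) ?_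
      push_cast
      nlinarith [mul_nonneg hi0 (sub_nonneg.2 hδ1)]
    calc (2 : ℝ) ^ (2 * δ * i) * (2 : ℝ) ^ ((2 - q) * u) * ((((u + i + 1 : ℕ) : ℝ) + 1) ^ 3 *
          (2 : ℝ) ^ (-((u + i + 1 : ℕ) : ℝ)))
        = (((u + i + 1 : ℕ) : ℝ) + 1) ^ 3 * ((2 : ℝ) ^ (2 * δ * i) * (2 : ℝ) ^ ((2 - q) * u) *
          (2 : ℝ) ^ (-((u + i + 1 : ℕ) : ℝ))) := by ring
      _ ≤ (((u : ℝ) + 1) * ((i : ℝ) + 2)) ^ 3 *
          ((2 : ℝ) ^ ((1 - q) * u) * (2 : ℝ) ^ (-(3 / 4 * (i : ℝ)))) :=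
          mul_le_mul g1 g2 (by positivity) (by positivity)
      _ = (((u : ℝ) + 1) ^ 3 * (2 : ℝ) ^ ((1 - q) * u)) *
          (((i : ℝ) + 2) ^ 3 * (2 : ℝ) ^ (-(3 / 4 * (i : ℝ)))) := by ring
      _ ≤ M * (((i : ℝ) + 2) ^ 3 * (2 : ℝ) ^ (-(3 / 4 * (i : ℝ)))) :=
          mul_le_mul_of_nonneg_right (hM u) (by positivity)
  have f2 : (2 : ℝ) ^ (2 * δ * i) * (2 : ℝ) ^ ((2 - q) * u) *
      (2 : ℝ) ^ ((σ - 2) * ((u + i + 1 : ℕ) : ℝ)) ≤ (2 : ℝ) ^ (-((2 - σ) / 2 * (i : ℝ))) := by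
    rw [← Real.rpow_add h2, ← Real.rpow_add h2]
    refine Real.rpow_le_rpow_of_exponent_le (by norm_num) ?_
    push_cast
    nlinarith [mul_nonneg hi0 (sub_nonneg.2 hδ2), mul_nonneg hu0 (sub_nonneg.2 hσq.le)]
  set S : ℝ := (((u + i + 1 : ℕ) : ℝ) + 1) ^ 3 * (2 : ℝ) ^ (-((u + i + 1 : ℕ) : ℝ)) +
    (2 : ℝ) ^ ((σ - 2) * ((u + i + 1 : ℕ) : ℝ)) with hS
  have hS0 : 0 ≤ S := by positivity
  rw [e1]
  calc (c₁ ^ 2)⁻¹ * (2 : ℝ) ^ (2 * δ * i) * (Λ ^ 2)⁻¹ * (C₀ * S)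
      = ((c₁ ^ 2)⁻¹ * C₀ * ((2 : ℝ) ^ (2 * δ * i) * S)) * (Λ ^ 2)⁻¹ := by ring
    _ ≤ ((c₁ ^ 2)⁻¹ * C₀ * ((2 : ℝ) ^ (2 * δ * i) * S)) *
        (Λ ^ (-q) * (2 : ℝ) ^ ((2 - q) * u)) :=
        mul_le_mul_of_nonneg_left e3 (by positivity)
    _ = ((c₁ ^ 2)⁻¹ * C₀ * Λ ^ (-q)) *
        ((2 : ℝ) ^ (2 * δ * i) * (2 : ℝ) ^ ((2 - q) * u) * S) := by ring
    _ ≤ ((c₁ ^ 2)⁻¹ * C₀ * Λ ^ (-q)) *
        (M * (((i : ℝ) + 2) ^ 3 * (2 : ℝ) ^ (-(3 / 4 * (i : ℝ)))) +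
          (2 : ℝ) ^ (-((2 - σ) / 2 * (i : ℝ)))) := by
        refine mul_le_mul_of_nonneg_left ?_ (by positivity)
        rw [hS, mul_add]
        exact add_le_add f1 f2

theorem hPHI (hYB : StYB) (_hSYS : StSYS) (hPDF : StPDF) : StPHI := by
  intro φ τ A σ q c hG hGap hA hσ hσq hq
  obtain ⟨C₀, hC₀, hP⟩ := hPDF φ τ A σ c hG hGap hA (by linarith)
  set δ : ℝ := min (1 / 8) ((2 - σ) / 4) with hδ
  have hδ0 : 0 < δ := lt_min (by norm_num) (by linarith)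
  have hδ1 : δ ≤ 1 / 8 := min_le_left _ _
  have hδ2 : δ ≤ (2 - σ) / 4 := min_le_right _ _
  set r : ℝ := (2 : ℝ) ^ (-δ) with hr
  have hr0 : 0 < r := Real.rpow_pos_of_pos (by norm_num) _
  have hr1 : r < 1 := Real.rpow_lt_one_of_one_lt_of_neg (by norm_num) (by linarith)
  set c₁ : ℝ := (1 - r) / 32 with hc₁
  have hc₁0 : 0 < c₁ := by
    rw [hc₁]
    linarith
  -- the constant `M`
  have hsq := phi_sum (q - 1) (by linarith)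
  set M : ℝ := ∑' i : ℕ, ((i : ℝ) + 2) ^ 3 * (2 : ℝ) ^ (-((q - 1) * i)) with hMdef
  have hM : ∀ u : ℕ, ((u : ℝ) + 1) ^ 3 * (2 : ℝ) ^ ((1 - q) * u) ≤ M := by
    intro u
    have h1 := hsq.le_tsum u fun i _ => by positivity
    refine le_trans ?_ h1
    have e : (2 : ℝ) ^ ((1 - q) * u) = (2 : ℝ) ^ (-((q - 1) * (u : ℝ))) := by
      congr 1
      ring
    rw [e]
    refine mul_le_mul_of_nonneg_right ?_ (by positivity)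
    refine pow_le_pow_left₀ (by positivity) (by linarith) 3
  have hM0 : 0 ≤ M := le_trans (by positivity) (hM 0)
  -- the weights
  set w : ℕ → ℝ := fun i => M * (((i : ℝ) + 2) ^ 3 * (2 : ℝ) ^ (-(3 / 4 * (i : ℝ)))) +
    (2 : ℝ) ^ (-((2 - σ) / 2 * (i : ℝ))) with hw
  have hws : Summable w := ((phi_sum (3 / 4) (by norm_num)).mul_left M).add
    (phi_geo ((2 - σ) / 2) (by linarith))
  have hw0 : ∀ i, 0 ≤ w i := fun i => by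
    simp only [hw]
    positivity
  refine ⟨(c₁ ^ 2)⁻¹ * C₀ * (∑' i, w i) + 1, ?_, ?_⟩
  · have : 0 ≤ ∑' i, w i := tsum_nonneg hw0
    positivity
  intro u Λ F hu hΛ hF
  have hΛ0 : 0 < Λ := lt_of_lt_of_le (by positivity) hΛ
  have hgB : BB (F.indicator 1) := phi_bb_ind hF
  set g : Pl → ℝ := F.indicator 1 with hg
  have hgF : ∫⁻ x, ‖g x‖ₑ ^ 2 = volume F := by
    have h1 : ∀ x, ‖g x‖ₑ ^ 2 = F.indicator (1 : Pl → ℝ≥0∞) x := by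
      intro x
      by_cases hx : x ∈ F
      · simp [hg, hx]
      · simp [hg, hx]
    simp_rw [h1]
    exact lintegral_indicator_one hF.1
  set a : ℕ → ℝ := fun i => c₁ * r ^ i * Λ with ha
  have ha0 : ∀ i, 0 < a i := fun i => by
    simp only [ha]
    positivity
  have has : HasSum a (Λ / 32) := by
    have h1 := ((hasSum_geometric_of_lt_one hr0.le hr1).mul_left c₁).mul_right Λ
    have e : c₁ * (1 - r)⁻¹ * Λ = Λ / 32 := by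
      have : 1 - r ≠ 0 := by linarith
      rw [hc₁]
      field_simp
    rwa [e] at h1
  set D : ℕ → ℤ → Pl → ℝ := fun i k x => Sa c φ τ (u + i + 1) k g x - Sa c φ τ (u + i) k g x
    with hD
  have hDm : ∀ i k, Measurable (D i k) := fun i k =>
    (phi_meas hYB hG c _ k hgB).sub (phi_meas hYB hG c _ k hgB)
  -- inclusion
  have hsub : {x | ∃ k : ℤ, ENNReal.ofReal (Λ / 16) < ∑' i : ℕ, ‖D i k x‖ₑ} ⊆
      ⋃ i : ℕ, ⋃ k : ℤ, {x | ENNReal.ofReal (a i) ≤ ‖D i k x‖ₑ} := by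
    rintro x ⟨k, hk⟩
    by_contra hx
    simp only [mem_iUnion, mem_ofPred_eq, not_exists, not_le] at hx
    have h1 : ∑' i : ℕ, ‖D i k x‖ₑ ≤ ∑' i : ℕ, ENNReal.ofReal (a i) :=
      ENNReal.tsum_le_tsum fun i => (hx i k).le
    rw [← ENNReal.ofReal_tsum_of_nonneg (fun i => (ha0 i).le) has.summable, has.tsum_eq] at h1
    have h2 : ENNReal.ofReal (Λ / 32) ≤ ENNReal.ofReal (Λ / 16) :=
      ENNReal.ofReal_le_ofReal (by linarith)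
    exact absurd (h1.trans h2) (not_le.2 hk)
  -- one level
  have hlev : ∀ i : ℕ, ∑' k : ℤ, volume {x | ENNReal.ofReal (a i) ≤ ‖D i k x‖ₑ} ≤
      ENNReal.ofReal (((c₁ ^ 2)⁻¹ * C₀ * Λ ^ (-q)) * w i) * volume F := by
    intro i
    have h1 : ∑' k : ℤ, ∫⁻ x, ‖D i k x‖ₑ ^ 2 ≤ ENNReal.ofReal (C₀ *
        ((((u + i + 1 : ℕ) : ℝ) + 1) ^ 3 * (2 : ℝ) ^ (-((u + i + 1 : ℕ) : ℝ)) +
          (2 : ℝ) ^ ((σ - 2) * ((u + i + 1 : ℕ) : ℝ)))) * ∫⁻ x, ‖g x‖ₑ ^ 2 :=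
      hP (u + i + 1) (by omega) g hgB
    calc ∑' k : ℤ, volume {x | ENNReal.ofReal (a i) ≤ ‖D i k x‖ₑ}
        ≤ ∑' k : ℤ, ENNReal.ofReal ((a i ^ 2)⁻¹) * ∫⁻ x, ‖D i k x‖ₑ ^ 2 :=
          ENNReal.tsum_le_tsum fun k => phi_cheb (hDm i k) (ha0 i)
      _ = ENNReal.ofReal ((a i ^ 2)⁻¹) * ∑' k : ℤ, ∫⁻ x, ‖D i k x‖ₑ ^ 2 := ENNReal.tsum_mul_left
      _ ≤ ENNReal.ofReal ((a i ^ 2)⁻¹) * (ENNReal.ofReal (C₀ *
          ((((u + i + 1 : ℕ) : ℝ) + 1) ^ 3 * (2 : ℝ) ^ (-((u + i + 1 : ℕ) : ℝ)) +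
          (2 : ℝ) ^ ((σ - 2) * ((u + i + 1 : ℕ) : ℝ)))) * ∫⁻ x, ‖g x‖ₑ ^ 2) := by gcongr
      _ = ENNReal.ofReal ((a i ^ 2)⁻¹ * (C₀ *
          ((((u + i + 1 : ℕ) : ℝ) + 1) ^ 3 * (2 : ℝ) ^ (-((u + i + 1 : ℕ) : ℝ)) +
          (2 : ℝ) ^ ((σ - 2) * ((u + i + 1 : ℕ) : ℝ))))) * volume F := by
          rw [hgF, ← mul_assoc, ← ENNReal.ofReal_mul (inv_nonneg.2 (sq_nonneg _))]
      _ ≤ ENNReal.ofReal (((c₁ ^ 2)⁻¹ * C₀ * Λ ^ (-q)) * w i) * volume F :=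
          mul_le_mul' (ENNReal.ofReal_le_ofReal
            (phi_num hσq hq hδ1 hδ2 hC₀ hc₁0 hM u i Λ hΛ)) le_rfl
  have hK0 : 0 ≤ (c₁ ^ 2)⁻¹ * C₀ * Λ ^ (-q) := by
    have := Real.rpow_pos_of_pos hΛ0 (-q)
    positivity
  calc volume {x | ∃ k : ℤ, ENNReal.ofReal (Λ / 16) < ∑' i : ℕ, ‖D i k x‖ₑ}
      ≤ volume (⋃ i : ℕ, ⋃ k : ℤ, {x | ENNReal.ofReal (a i) ≤ ‖D i k x‖ₑ}) := measure_mono hsub
    _ ≤ ∑' i : ℕ, volume (⋃ k : ℤ, {x | ENNReal.ofReal (a i) ≤ ‖D i k x‖ₑ}) :=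
        measure_iUnion_le _
    _ ≤ ∑' i : ℕ, ∑' k : ℤ, volume {x | ENNReal.ofReal (a i) ≤ ‖D i k x‖ₑ} :=
        ENNReal.tsum_le_tsum fun i => measure_iUnion_le _
    _ ≤ ∑' i : ℕ, ENNReal.ofReal (((c₁ ^ 2)⁻¹ * C₀ * Λ ^ (-q)) * w i) * volume F :=
        ENNReal.tsum_le_tsum hlev
    _ = ENNReal.ofReal (∑' i : ℕ, ((c₁ ^ 2)⁻¹ * C₀ * Λ ^ (-q)) * w i) * volume F := by
        rw [ENNReal.tsum_mul_right, ENNReal.ofReal_tsum_of_nonneg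
          (fun i => mul_nonneg hK0 (hw0 i)) (hws.mul_left _)]
    _ ≤ ENNReal.ofReal (((c₁ ^ 2)⁻¹ * C₀ * (∑' i, w i) + 1) * Λ ^ (-q)) * volume F := by
        gcongr
        rw [tsum_mul_left]
        have h1 : (c₁ ^ 2)⁻¹ * C₀ * Λ ^ (-q) * ∑' i, w i =
            ((c₁ ^ 2)⁻¹ * C₀ * (∑' i, w i)) * Λ ^ (-q) := by ring
        rw [h1]
        refine mul_le_mul_of_nonneg_right (by linarith) (Real.rpow_nonneg hΛ0.le _)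

end Pool.Agent.Helper12.RL
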